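import Pool.Agent.Y5.V.Stm
import Pool.Agent.H772R2.NSR.Ode

/-!
Existence for the truncated systems with damping. The vector field is evaluated at the projection
of the state to the real divergence free fields; the solution is then a real divergence free field
because the vector field takes its values in this space.
-/

open Set Filter Topology Metric
open scoped NNReal InnerProductSpace ComplexConjugate

set_option autoImplicit false

namespace Pool.Agent.Y100.VL.Gal

open Pool.Agent.Y5.V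
open Pool.Agent.Y6.M (Z3 C3 Coef dt kc cj nsq len adv leray IsField energy)

section

variable {I : Type} (F : Finset I)

/-- the state space: real and imaginary parts -/
abbrev ES := EuclideanSpace ℝ (↥F × Bool)

open Classical in
/-- the complex amplitudes, extended by zero -/
noncomputable def ext (x : ES F) (i : I) : ℂ :=
  if h : i ∈ F then (⟨x (⟨i, h⟩, false), x (⟨i, h⟩, true)⟩ : ℂ) else 0

variable {F}

lemma ext_mem (x : ES F) {i : I} (h : i ∈ F) :
    ext F x i = ⟨x (⟨i, h⟩, false), x (⟨i, h⟩, true)⟩ := by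
  simp [ext, h]

lemma ext_not (x : ES F) {i : I} (h : i ∉ F) : ext F x i = 0 := by
  simp [ext, h]

lemma mk_eq (a b : ℝ) : (⟨a, b⟩ : ℂ) = (a : ℂ) + (b : ℂ) * Complex.I := Complex.mk_eq_add_mul_I a b

lemma ext_contDiff (i : I) : ContDiff ℝ 1 fun x : ES F => ext F x i := by
  by_cases h : i ∈ F
  · have e : (fun x : ES F => ext F x i) = fun x : ES F =>
        ((x (⟨i, h⟩, false) : ℝ) : ℂ) + ((x (⟨i, h⟩, true) : ℝ) : ℂ) * Complex.I := by
      funext x
      rw [ext_mem x h, mk_eq]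
    rw [e]
    have h1 : ∀ j : ↥F × Bool, ContDiff ℝ 1 fun x : ES F => ((x j : ℝ) : ℂ) := fun j =>
      Complex.ofRealCLM.contDiff.comp (contDiff_piLp_apply 2)
    exact (h1 _).add ((h1 _).mul contDiff_const)
  · simp only [ext, h, dif_neg, not_false_eq_true]
    exact contDiff_const

lemma inner_ES (X x : ES F) : ⟪X, x⟫_ℝ = ∑ i ∈ F, (conj (ext F x i) * ext F X i).re := by
  rw [← Finset.sum_coe_sort, PiLp.inner_apply, Fintype.sum_prod_type]
  refine Finset.sum_congr rfl fun i _ => ?_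
  rw [ext_mem x i.2, ext_mem X i.2, Fintype.sum_bool]
  simp only [Complex.mul_re, Complex.conj_re, Complex.conj_im, RCLike.inner_apply,
    conj_trivial]
  ring

/-- the vector field on the state space with the components `f` -/
noncomputable def XX (F : Finset I) (f : (I → ℂ) → I → ℂ) (x : ES F) : ES F :=
  WithLp.toLp 2 fun q => if q.2 then (f (ext F x) q.1).im else (f (ext F x) q.1).re

lemma ext_XX (f : (I → ℂ) → I → ℂ) (x : ES F) {i : I} (hi : i ∈ F) :
    ext F (XX F f x) i = f (ext F x) i := by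
  rw [ext_mem _ hi]
  exact Complex.ext rfl rfl

lemma XX_contDiff (f : (I → ℂ) → I → ℂ)
    (hf : ∀ i, ContDiff ℝ 1 fun x : ES F => f (ext F x) i) : ContDiff ℝ 1 (XX F f) := by
  rw [contDiff_piLp]
  rintro ⟨i, b⟩
  cases b with
  | true =>
    have h := Complex.imCLM.contDiff.comp (hf (i : I))
    exact h
  | false =>
    have h := Complex.reCLM.contDiff.comp (hf (i : I))
    exact h

/-- Solutions of the ordinary differential equation `z' = f z` on `F`. -/
lemma exists_sol (f : (I → ℂ) → I → ℂ) (hf : ∀ i, ContDiff ℝ 1 fun x : ES F => f (ext F x) i)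
    (hen : ∀ x : ES F, ∑ i ∈ F, (conj (ext F x i) * f (ext F x) i).re ≤ 0) (v : I → ℂ) {δ : ℝ}
    (hδ : 0 < δ) : ∃ z : ℝ → I → ℂ, (∀ i ∈ F, z 0 i = v i) ∧ (∀ t, ∀ i ∉ F, z t i = 0) ∧
      ∀ i ∈ F, ∀ t ∈ Icc 0 δ, HasDerivWithinAt (fun s => z s i) (f (z t) i) (Icc 0 δ) t := by
  have hlip : ∀ R : ℝ, ∃ C : ℝ≥0, ∀ t ∈ Icc (0 : ℝ) δ,
      LipschitzOnWith C ((fun _ => XX F f) t) (closedBall 0 R) := by
    intro R
    obtain ⟨C, hC⟩ := ((XX_contDiff f hf).contDiffOn
      (s := closedBall 0 R)).exists_lipschitzOnWith one_ne_zero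
        (convex_closedBall 0 R) (isCompact_closedBall 0 R)
    exact ⟨C, fun _ _ => hC⟩
  have hen' : ∀ t ∈ Icc (0 : ℝ) δ, ∀ x : ES F, ⟪(fun _ : ℝ => XX F f) t x, x⟫_ℝ ≤ 0 := by
    intro t _ x
    change ⟪XX F f x, x⟫_ℝ ≤ 0
    have h1 : ∑ i ∈ F, (conj (ext F x i) * ext F (XX F f x) i).re =
        ∑ i ∈ F, (conj (ext F x i) * f (ext F x) i).re :=
      Finset.sum_congr rfl fun i hi => by rw [ext_XX f x hi]
    rw [inner_ES, h1]
    exact hen x
  obtain ⟨x, hxi, hxd, -⟩ := H772R2.NSR.exists_global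
    (fun _ => XX F f) (T := δ) hδ.le hlip (fun _ => continuousOn_const)
    (WithLp.toLp 2 fun q => if q.2 then (v q.1).im else (v q.1).re : ES F) le_rfl hen'
  refine ⟨fun t => ext F (x t), ?_, fun t i hi => ext_not _ hi, ?_⟩
  · intro i hi
    change ext F (x 0) i = v i
    rw [hxi, ext_mem _ hi]
    exact Complex.ext rfl rfl
  · intro i hi t ht
    have h3 : ∀ q : ↥F × Bool, HasDerivWithinAt (fun t => x t q)
        (XX F f (x t) q) (Icc 0 δ) t := fun q =>
      (PiLp.proj (𝕜 := ℝ) 2 (fun _ : ↥F × Bool => ℝ) q).hasFDerivAt.comp_hasDerivWithinAt t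
        (hxd t ht)
    have h4 := (h3 (⟨i, hi⟩, false)).ofReal_comp.add
      ((h3 (⟨i, hi⟩, true)).ofReal_comp.mul_const Complex.I)
    have h5 : (fun t => ext F (x t) i) = fun t => ((x t (⟨i, hi⟩, false) : ℝ) : ℂ) +
        ((x t (⟨i, hi⟩, true) : ℝ) : ℂ) * Complex.I := by
      funext t
      rw [ext_mem _ hi, mk_eq]
    change HasDerivWithinAt (fun t => ext F (x t) i) (f (ext F (x t)) i) (Icc 0 δ) t
    rw [h5, ← ext_XX f (x t) hi, ext_mem _ hi, mk_eq]
    exact h4

end

/-! ### The projection -/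

lemma nsq_neg (k : Z3) : nsq (-k) = nsq k := by simp [nsq]

lemma kc_neg (k : Z3) (j : Fin 3) : kc (-k) j = -kc k j := by simp [kc]

lemma conj_kc (k : Z3) (j : Fin 3) : conj (kc k j) = kc k j := by simp [kc]

lemma sq_le_nsq (k : Z3) (j : Fin 3) : k j ^ 2 ≤ nsq k :=
  Finset.single_le_sum (f := fun j => k j ^ 2) (fun i _ => sq_nonneg (k i)) (Finset.mem_univ j)

lemma nsq_pos {k : Z3} (hk : k ≠ 0) : 0 < nsq k := by
  obtain ⟨j, hj⟩ := Function.ne_iff.1 hk
  have h1 : k j ≠ 0 := hj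
  have h2 : 0 < k j ^ 2 := by positivity
  exact h2.trans_le (sq_le_nsq k j)

lemma dt_kc_kc (k : Z3) : dt (kc k) (kc k) = ((nsq k : ℝ) : ℂ) := by
  simp only [dt, kc, nsq, Fin.sum_univ_three]
  push_cast
  ring

lemma dt_sub_mul (a w b : C3) (c : ℂ) : dt a (fun j => w j - c * b j) = dt a w - c * dt a b := by
  simp only [dt, Fin.sum_univ_three]
  ring

lemma dt_leray (k : Z3) (w : C3) : dt (kc k) (leray k w) = 0 := by
  by_cases hk : k = 0
  · subst hk
    simp [dt, kc]
  · have h := nsq_pos hk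
    have hne : ((nsq k : ℝ) : ℂ) ≠ 0 := by exact_mod_cast h.ne'
    have e : dt (kc k) (leray k w) =
        dt (kc k) w - dt (kc k) w / ((nsq k : ℝ) : ℂ) * dt (kc k) (kc k) :=
      dt_sub_mul _ _ _ _
    rw [e, dt_kc_kc, div_mul_cancel₀ _ hne, sub_self]

lemma leray_eq {k : Z3} {w : C3} (h : dt (kc k) w = 0) : leray k w = w := by
  funext j
  unfold leray
  rw [h]
  simp

lemma leray_neg (k : Z3) (w : C3) (j : Fin 3) :
    leray (-k) (fun j => conj (w j)) j = conj (leray k w j) := by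
  unfold leray
  have h1 : dt (kc (-k)) (fun j => conj (w j)) = -conj (dt (kc k) w) := by
    simp only [dt, map_sum, map_mul, conj_kc, kc_neg, neg_mul, Finset.sum_neg_distrib]
  rw [h1, nsq_neg, kc_neg, map_sub, map_mul, map_div₀, Complex.conj_ofReal, conj_kc]
  ring

lemma pair_left (k : Z3) (s Y : C3) (hY : dt (kc k) Y = 0) :
    ∑ j, conj (leray k s j) * Y j = ∑ j, conj (s j) * Y j := by
  have e : ∑ j, conj (leray k s j) * Y j =
      ∑ j, conj (s j) * Y j - conj (dt (kc k) s / ((nsq k : ℝ) : ℂ)) * dt (kc k) Y := by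
    unfold leray
    generalize dt (kc k) s / ((nsq k : ℝ) : ℂ) = c
    simp only [dt, map_sub, map_mul, conj_kc, Fin.sum_univ_three]
    ring
  rw [e, hY, mul_zero, sub_zero]

lemma pair_right (k : Z3) (w Y : C3) (hw : dt (kc k) w = 0) :
    ∑ j, conj (w j) * leray k Y j = ∑ j, conj (w j) * Y j := by
  have e : ∑ j, conj (w j) * leray k Y j =
      ∑ j, conj (w j) * Y j - dt (kc k) Y / ((nsq k : ℝ) : ℂ) * conj (dt (kc k) w) := by
    unfold leray
    generalize dt (kc k) Y / ((nsq k : ℝ) : ℂ) = c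
    simp only [dt, Fin.sum_univ_three, map_add, map_mul, conj_kc]
    ring
  rw [e, hw, map_zero, mul_zero, sub_zero]

/-- symmetrization -/
noncomputable def syf (z : Coef) : Coef := fun k j => (z k j + conj (z (-k) j)) / 2

/-- the projection to the real divergence free fields -/
noncomputable def Pr (z : Coef) : Coef := fun k => leray k (syf z k)

lemma syf_neg (z : Coef) (k : Z3) : syf z (-k) = fun j => conj (syf z k j) := by
  funext j
  unfold syf
  rw [neg_neg, map_div₀, map_add, Complex.conj_conj, add_comm]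
  congr 1
  exact (Complex.conj_ofNat 2).symm

lemma Pr_real (z : Coef) (k : Z3) (j : Fin 3) : Pr z (-k) j = conj (Pr z k j) := by
  unfold Pr
  rw [← leray_neg, syf_neg]

lemma Pr_div (z : Coef) (k : Z3) : dt (kc k) (Pr z k) = 0 := dt_leray _ _

lemma Pr_zero {z : Coef} {k : Z3} (h1 : z k = 0) (h2 : z (-k) = 0) : Pr z k = 0 := by
  have h : syf z k = 0 := by
    funext j
    unfold syf
    rw [h1, h2]
    simp
  have h' : dt (kc k) (0 : C3) = 0 := by simp [dt]
  unfold Pr
  rw [h, leray_eq h']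

lemma Pr_eq {z : Coef} (h1 : ∀ k j, z (-k) j = conj (z k j)) (h2 : ∀ k, dt (kc k) (z k) = 0) :
    Pr z = z := by
  have h : syf z = z := by
    funext k j
    unfold syf
    rw [h1, Complex.conj_conj]
    ring
  funext k
  unfold Pr
  rw [h, leray_eq (h2 k)]

/-! ### The right hand side -/

lemma adv_real {V : Coef} (hV : ∀ k j, V (-k) j = conj (V k j)) (k : Z3) (j : Fin 3) :
    adv V (-k) j = conj (adv V k j) := by
  unfold adv
  rw [← (Equiv.neg Z3).tsum_eq, Complex.conj_tsum]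
  refine tsum_congr fun p => ?_
  have e : -k - (Equiv.neg Z3) p = -(k - p) := by
    rw [Equiv.neg_apply]
    abel
  rw [e, Equiv.neg_apply, hV]
  have h1 : dt (V (-p)) (kc (-(k - p))) = -conj (dt (V p) (kc (k - p))) := by
    simp only [dt, map_sum, map_mul, conj_kc, kc_neg, hV, mul_neg, Finset.sum_neg_distrib]
  rw [h1]
  simp only [map_mul, Complex.conj_I, Complex.conj_ofReal, Complex.conj_ofNat]
  ring

lemma rhs_real {d : Z3 → ℝ} (hd : ∀ k, d (-k) = d k) {V : Coef}
    (hV : ∀ k j, V (-k) j = conj (V k j)) (k : Z3) (j : Fin 3) :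
    rhs d V (-k) j = conj (rhs d V k j) := by
  have h1 : adv V (-k) = fun j => conj (adv V k j) := funext fun i => adv_real hV k i
  unfold rhs
  rw [hd, hV, map_sub, map_mul, map_neg, Complex.conj_ofReal, h1, leray_neg]

lemma rhs_div (d : Z3 → ℝ) {V : Coef} {k : Z3} (hV : dt (kc k) (V k) = 0) :
    dt (kc k) (rhs d V k) = 0 := by
  have e : dt (kc k) (rhs d V k) =
      -((d k : ℝ) : ℂ) * dt (kc k) (V k) - dt (kc k) (leray k (adv V k)) := by
    unfold rhs
    generalize leray k (adv V k) = u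
    simp only [dt, Fin.sum_univ_three]
    ring
  rw [e, hV, dt_leray]
  ring

/-- the energy inequality -/
lemma en_le (hort : S_ORT) {d : Z3 → ℝ} (hd : Dmp d) {R : ℕ} {K : Finset Z3}
    (hK : ∀ k, k ∈ K ↔ k ≠ 0 ∧ nsq k ≤ R) {z : Coef} (hz : ∀ k, k ∉ K → z k = 0) :
    ∑ k ∈ K, ∑ j, (conj (z k j) * rhs d (Pr z) k j).re ≤ 0 := by
  have hKn : ∀ k ∈ K, -k ∈ K := by
    intro k hk
    rw [hK] at hk ⊢
    rw [nsq_neg]
    exact ⟨neg_ne_zero.2 hk.1, hk.2⟩
  have hKn' : ∀ k, k ∉ K → -k ∉ K := fun k hk h => hk (by simpa using hKn _ h)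
  have hw0 : ∀ k, k ∉ K → Pr z k = 0 := fun k hk => Pr_zero (hz k hk) (hz _ (hKn' k hk))
  have hYr := rhs_real hd.even (Pr_real z)
  have h1 : ∑ k ∈ K, ∑ j, (z (-k) j * rhs d (Pr z) k j).re =
      ∑ k ∈ K, ∑ j, (conj (z k j) * rhs d (Pr z) k j).re := by
    refine Finset.sum_nbij' (fun k => -k) (fun k => -k) hKn hKn (fun k _ => neg_neg k)
      (fun k _ => neg_neg k) ?_
    intro k _
    refine Finset.sum_congr rfl fun j _ => ?_
    rw [hYr, ← map_mul, Complex.conj_re]
  have h2 : ∀ k j, (conj (syf z k j) * rhs d (Pr z) k j).re =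
      ((conj (z k j) * rhs d (Pr z) k j).re + (z (-k) j * rhs d (Pr z) k j).re) / 2 := by
    intro k j
    have e : conj (syf z k j) * rhs d (Pr z) k j =
        (conj (z k j) * rhs d (Pr z) k j + z (-k) j * rhs d (Pr z) k j) / 2 := by
      unfold syf
      rw [map_div₀, map_add, Complex.conj_conj, Complex.conj_ofNat]
      ring
    rw [e, ← Complex.add_re]
    exact Complex.div_ofNat_re _ 2
  have h3 : ∑ k ∈ K, ∑ j, (conj (z k j) * rhs d (Pr z) k j).re =
      ∑ k ∈ K, ∑ j, (conj (syf z k j) * rhs d (Pr z) k j).re := by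
    simp only [h2]
    simp only [← Finset.sum_div, Finset.sum_add_distrib]
    rw [h1]
    ring
  have h4 : ∀ k, ∑ j, (conj (syf z k j) * rhs d (Pr z) k j).re =
      -(d k * ∑ j, ‖Pr z k j‖ ^ 2) - (∑ j, conj (Pr z k j) * adv (Pr z) k j).re := by
    intro k
    have e1 : ∑ j, (conj (syf z k j) * rhs d (Pr z) k j).re =
        (∑ j, conj (Pr z k j) * rhs d (Pr z) k j).re := by
      rw [← Complex.re_sum, ← pair_left k (syf z k) _ (rhs_div d (Pr_div z k))]
      rfl
    have e2 : ∑ j, conj (Pr z k j) * rhs d (Pr z) k j =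
        -((d k * ∑ j, ‖Pr z k j‖ ^ 2 : ℝ) : ℂ) - ∑ j, conj (Pr z k j) * adv (Pr z) k j := by
      rw [← pair_right k (Pr z k) (adv (Pr z) k) (Pr_div z k), Complex.ofReal_mul,
        Complex.ofReal_sum, Finset.mul_sum, ← Finset.sum_neg_distrib, ← Finset.sum_sub_distrib]
      refine Finset.sum_congr rfl fun j _ => ?_
      have e3 : (((‖Pr z k j‖ ^ 2 : ℝ)) : ℂ) = conj (Pr z k j) * Pr z k j := by
        rw [← Complex.normSq_eq_norm_sq, mul_comm, Complex.mul_conj]
      rw [e3]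
      unfold rhs
      ring
    rw [e1, e2, Complex.sub_re, Complex.neg_re, Complex.ofReal_re]
  have h5 : ∑ k ∈ K, (∑ j, conj (Pr z k j) * adv (Pr z) k j).re = 0 := by
    have h6 := hort R (Pr z) (fun k hk => hw0 k fun h => by
      have := ((hK k).1 h).2
      omega) (hw0 0 fun h => ((hK 0).1 h).1 rfl) (Pr_real z) (Pr_div z)
    rw [← h6]
    refine (tsum_eq_sum fun k hk => ?_).symm
    rw [hw0 k hk]
    simp
  rw [h3]
  simp only [h4]
  rw [Finset.sum_sub_distrib, h5, sub_zero]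
  refine Finset.sum_nonpos fun k _ => ?_
  have h7 := hd.nonneg k
  have h8 : 0 ≤ ∑ j, ‖Pr z k j‖ ^ 2 := Finset.sum_nonneg fun j _ => by positivity
  have h9 := mul_nonneg h7 h8
  linarith

/-- the right hand side depends smoothly on the state -/
lemma rhs_contDiff {E : Type} [NormedAddCommGroup E] [NormedSpace ℝ E] (d : Z3 → ℝ)
    {K : Finset Z3} (hKn : ∀ k, k ∉ K → -k ∉ K) (z : E → Coef)
    (hz : ∀ k j, ContDiff ℝ 1 fun x => z x k j) (hz0 : ∀ x k, k ∉ K → z x k = 0)
    (k : Z3) (j : Fin 3) : ContDiff ℝ 1 fun x => rhs d (Pr (z x)) k j := by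
  have hs : ∀ k j, ContDiff ℝ 1 fun x => syf (z x) k j := by
    intro k j
    unfold syf
    refine ContDiff.div_const (ContDiff.add (hz k j) ?_) 2
    exact Complex.conjCLE.contDiff.comp (hz (-k) j)
  have hl : ∀ (w : E → C3) (k : Z3), (∀ j, ContDiff ℝ 1 fun x => w x j) → ∀ j,
      ContDiff ℝ 1 fun x => leray k (w x) j := by
    intro w k hw j
    unfold leray dt
    refine (hw j).sub (ContDiff.mul (ContDiff.div_const ?_ _) contDiff_const)
    exact ContDiff.sum fun i _ => contDiff_const.mul (hw i)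
  have hP : ∀ k j, ContDiff ℝ 1 fun x => Pr (z x) k j := fun k j => hl _ k (hs k) j
  have hP0 : ∀ x k, k ∉ K → Pr (z x) k = 0 := fun x k hk =>
    Pr_zero (hz0 x k hk) (hz0 x _ (hKn k hk))
  have ha : ∀ k j, ContDiff ℝ 1 fun x => adv (Pr (z x)) k j := by
    intro k j
    have e : (fun x => adv (Pr (z x)) k j) = fun x => ∑ p ∈ K,
        2 * Real.pi * Complex.I * dt (Pr (z x) p) (kc (k - p)) * Pr (z x) (k - p) j := by
      funext x
      unfold adv
      refine tsum_eq_sum fun p hp => ?_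
      rw [hP0 x p hp]
      simp [dt]
    rw [e]
    unfold dt
    refine ContDiff.sum fun p _ => ?_
    refine ContDiff.mul (ContDiff.mul contDiff_const ?_) (hP _ j)
    exact ContDiff.sum fun i _ => (hP p i).mul contDiff_const
  unfold rhs
  exact (contDiff_const.mul (hP k j)).sub (hl _ k (ha k) j)

lemma fin_K (R : ℕ) : {k : Z3 | k ≠ 0 ∧ nsq k ≤ R}.Finite := by
  refine Set.Finite.subset (Set.Finite.pi' fun _ : Fin 3 => Set.finite_Icc (-(R : ℤ)) R) ?_
  intro k hk j
  have h1 := sq_le_nsq k j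
  have h2 : nsq k ≤ R := hk.2
  have h3 : |k j| ≤ k j ^ 2 := (Int.le_self_sq |k j|).trans_eq (sq_abs (k j))
  exact ⟨(abs_le.1 ((h3.trans h1).trans h2)).1, (abs_le.1 ((h3.trans h1).trans h2)).2⟩

/-- functions with the derivative zero -/
lemma const_of_zero {u : ℝ → ℂ} {δ : ℝ} (hδ : 0 < δ)
    (hu : ∀ s ∈ Icc (0 : ℝ) δ, HasDerivWithinAt u 0 (Icc 0 δ) s) (h0 : u 0 = 0) :
    ∀ t ∈ Icc (0 : ℝ) δ, u t = 0 := by
  intro t ht
  have hc := constant_of_derivWithin_zero (fun s hs => (hu s hs).differentiableWithinAt)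
    (fun s hs => (hu s ⟨hs.1, hs.2.le⟩).derivWithin
      ((uniqueDiffOn_Icc hδ) s ⟨hs.1, hs.2.le⟩)) t ht
  rw [hc, h0]

theorem t_GAL : S_GAL := by
  intro hort d V0 R δ hd hV0 hδ
  classical
  set K : Finset Z3 := (fin_K R).toFinset with hKdef
  have hK : ∀ k, k ∈ K ↔ k ≠ 0 ∧ nsq k ≤ R := by
    intro k
    rw [hKdef, Set.Finite.mem_toFinset]
    rfl
  have hKn' : ∀ k, k ∉ K → -k ∉ K := by
    intro k hk h
    rw [hK] at hk h
    rw [nsq_neg] at h
    exact hk ⟨neg_ne_zero.1 h.1, h.2⟩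
  set F : Finset (Z3 × Fin 3) := K ×ˢ Finset.univ with hF
  have hmF : ∀ k j, (k, j) ∈ F ↔ k ∈ K := by
    intro k j
    simp [hF]
  obtain ⟨z, hz0, hzF, hzd⟩ := exists_sol (F := F)
    (fun y i => rhs d (Pr fun k j => y (k, j)) i.1 i.2) (by
      intro i
      exact rhs_contDiff (K := K) d hKn' (fun (x : ES F) k j => ext F x (k, j))
        (fun k j => ext_contDiff (k, j))
        (fun x k hk => funext fun j => ext_not x (by rwa [hmF])) i.1 i.2) (by
      intro x
      refine (Finset.sum_product K Finset.univ _).trans_le ?_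
      exact en_le hort hd hK (z := fun k j => ext F x (k, j))
        (fun k hk => funext fun j => ext_not x (by rwa [hmF])))
    (fun i => V0 i.1 i.2) hδ
  set Z : ℝ → Coef := fun t k j => z t (k, j) with hZ
  have hZ0 : ∀ t k, k ∉ K → Z t k = 0 := fun t k hk => funext fun j => hzF t _ (by rwa [hmF])
  have hZd : ∀ k ∈ K, ∀ j, ∀ t ∈ Icc 0 δ,
      HasDerivWithinAt (fun s => Z s k j) (rhs d (Pr (Z t)) k j) (Icc 0 δ) t :=
    fun k hk j t ht => hzd (k, j) (by rwa [hmF]) t ht
  have hZi : ∀ k ∈ K, ∀ j, Z 0 k j = V0 k j := fun k hk j => hz0 (k, j) (by rwa [hmF])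
  have hreal : ∀ t ∈ Icc 0 δ, ∀ k j, Z t (-k) j = conj (Z t k j) := by
    intro t ht k j
    by_cases hk : k ∈ K
    · have hk' : -k ∈ K := by
        by_contra h
        exact hKn' _ h (by rwa [neg_neg])
      have h1 : Z t (-k) j - conj (Z t k j) = 0 := by
        refine const_of_zero (u := fun s => Z s (-k) j - conj (Z s k j)) hδ
          (fun s hs => ?_) ?_ t ht
        · have h2 := Complex.conjCLE.hasFDerivAt.comp_hasDerivWithinAt s (hZd k hk j s hs)
          have h3 := (hZd (-k) hk' j s hs).sub h2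
          have h4 : rhs d (Pr (Z s)) (-k) j -
              (Complex.conjCLE : ℂ →L[ℝ] ℂ) (rhs d (Pr (Z s)) k j) = 0 := by
            rw [rhs_real hd.even (Pr_real (Z s))]
            exact sub_self _
          rw [h4] at h3
          exact h3
        · rw [hZi k hk, hZi _ hk', hV0.real, sub_self]
      exact sub_eq_zero.1 h1
    · rw [hZ0 t k hk, hZ0 t _ (hKn' k hk)]
      simp
  have hdiv : ∀ t ∈ Icc 0 δ, ∀ k, dt (kc k) (Z t k) = 0 := by
    intro t ht k
    by_cases hk : k ∈ K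
    · refine const_of_zero (u := fun s => dt (kc k) (Z s k)) hδ (fun s hs => ?_) ?_ t ht
      · have h1 : HasDerivWithinAt (fun s => dt (kc k) (Z s k))
            (dt (kc k) (rhs d (Pr (Z s)) k)) (Icc 0 δ) s := by
          unfold dt
          exact HasDerivWithinAt.fun_sum fun j _ => (hZd k hk j s hs).const_mul (kc k j)
        rwa [rhs_div d (Pr_div (Z s) k)] at h1
      · have h2 : Z 0 k = V0 k := funext fun j => hZi k hk j
        change dt (kc k) (Z 0 k) = 0
        rw [h2, hV0.div]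
    · rw [hZ0 t k hk]
      simp [dt]
  refine ⟨Z, ?_, ?_, hreal, hdiv, ?_, ?_⟩
  · intro k hk t
    refine hZ0 t k fun h => ?_
    have := ((hK k).1 h).2
    omega
  · intro t
    exact hZ0 t 0 fun h => ((hK 0).1 h).1 rfl
  · intro k hk hkR j t ht
    have h1 := hZd k ((hK k).2 ⟨hk, hkR⟩) j t ht
    rwa [Pr_eq (hreal t ht) (hdiv t ht)] at h1
  · intro k hk
    by_cases hk0 : k = 0
    · rw [hk0, hV0.zero]
      exact hZ0 0 0 fun h => ((hK 0).1 h).1 rfl
    · exact funext fun j => hZi k ((hK k).2 ⟨hk0, hk⟩) j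

end Pool.Agent.Y100.VL.Gal
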